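import Mathlib
import Pool.Agent.H25.DeltaK

set_option autoImplicit false

universe u

namespace Pool.Agent.Results.MP_028983_lc.Always

open Cardinal Set

/-- Injections from an ordinal below `κ⁺` into `κ`. -/
def Inj (κ : Cardinal.{u}) : Type u :=
  Σ a : (Order.succ κ).ord.ToType, (Iio a ↪ κ.ord.ToType)

/-- The principle `Δ(κ)`. -/
def WeakDelta (κ : Cardinal.{u}) : Prop :=
  ∀ D : (f : Inj κ) → Set (Iio f.1), (∀ f, #(D f) < κ) →
    ∃ F : (Order.succ κ).ord.ToType → Inj κ, (∀ i j, i < j → (F i).1 < (F j).1) ∧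
      ∀ i j, ∀ x ∈ D (F i), ∀ y ∈ D (F j), x.1 = y.1 → (F i).2 x = (F j).2 y

theorem result (κ : Cardinal.{u}) (hκ : ℵ₀ ≤ κ) : WeakDelta κ := by
  intro D hD
  exact Pool.Agent.H25.DeltaK.main
    (Pool.Agent.H25.NSIdealU.good_of_regular (Order.succ κ) (isRegular_succ hκ)
      (lt_of_le_of_lt hκ (Order.lt_succ κ)))
    (by simpa using hκ) (by simp) (fun a => by
      have := mk_Iio_lt a (by simp)
      rw [mk_ord_toType] at this ⊢
      exact Order.lt_succ_iff.1 this) D (fun f => lt_of_lt_of_eq (hD f) (mk_ord_toType κ).symm)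

end Pool.Agent.Results.MP_028983_lc.Always
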